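import Pool.Agent.W973.CES.Defs

/-!
# Coalition-exchange-stable matchings: existence of certificates
-/

set_option autoImplicit false

namespace Pool.Agent.W661.CES

open Pool.Agent.W973.CES

theorem getD_map_range (n : ℕ) (f : ℕ → ℕ) (i : ℕ) (hi : i < n) :
    ((List.range n).map f).getD i 0 = f i := by
  rw [List.getD_eq_getElem?_getD]
  simp [hi]

theorem sideB_of (n : ℕ) (L : List (List ℕ)) (p r : List ℕ)
    (h : ∀ i < n, ∀ j < n,
      (L.getD i []).idxOf (p.getD j 0) < (L.getD i []).idxOf (p.getD i 0) →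
        r.getD j 0 < r.getD i 0) : sideB n L p r = true := by
  unfold sideB
  rw [List.all_eq_true]
  intro i hi
  rw [List.all_eq_true]
  intro j hj
  rw [List.mem_range] at hi hj
  have h1 := h i hi j hj
  by_cases h2 : (L.getD i []).idxOf (p.getD j 0) < (L.getD i []).idxOf (p.getD i 0)
  · have h3 := h1 h2
    simp only [Bool.or_eq_true, decide_eq_true_eq]
    exact Or.inr h3
  · simp only [Bool.or_eq_true, Bool.not_eq_true', decide_eq_false_iff_not]
    exact Or.inl h2

theorem cert (h1 : S_VALB) (h2 : S_RANK) : S_CERT := by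
  intro I M hV hC
  obtain ⟨hperm, hno⟩ := hC
  have key : ∀ s : Bool, ∃ r : ℕ → ℕ, (∀ i, r i ≤ I.1.length) ∧
      ∀ i < I.1.length, ∀ j < I.1.length, Envy I M (s, i) (s, j) → r j < r i := by
    intro s
    apply h2 I.1.length (fun i j => Envy I M (s, i) (s, j))
    · intro i h
      exact lt_irrefl _ h.2
    · rintro ⟨k, a, hk, ha, hlt, hR⟩
      refine hno ⟨k, fun i => (s, a i), hk, ?_, hlt, hR⟩
      intro x y h
      exact ha (congrArg Prod.snd h)
  obtain ⟨r, hr, hr'⟩ := key true
  obtain ⟨w, hw, hw'⟩ := key false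
  have hlen : M.length = I.1.length := by
    rw [hperm.length_eq, List.length_range]
  refine ⟨(List.range I.1.length).map r, (List.range I.1.length).map w, ?_, hlen, ?_, ?_,
    ?_, ?_, ?_⟩
  · unfold verB
    simp only [Bool.and_eq_true, decide_eq_true_eq]
    refine ⟨⟨⟨⟨(h1 I).mpr hV, hlen⟩, ?_⟩, ?_⟩, ?_⟩
    · rw [List.all_eq_true]
      intro i hi
      exact decide_eq_true (hperm.mem_iff.mpr hi)
    · apply sideB_of
      intro i hi j hj hlt
      rw [getD_map_range _ _ _ hi, getD_map_range _ _ _ hj]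
      exact hr' i hi j hj ⟨rfl, hlt⟩
    · apply sideB_of
      intro i hi j hj hlt
      rw [getD_map_range _ _ _ hi, getD_map_range _ _ _ hj] at hlt ⊢
      exact hw' i hi j hj ⟨rfl, hlt⟩
  · simp
  · simp
  · intro x hx
    have := hperm.mem_iff.mp hx
    rw [List.mem_range] at this
    exact this.le
  · intro x hx
    rw [List.mem_map] at hx
    obtain ⟨i, _, rfl⟩ := hx
    exact hr i
  · intro x hx
    rw [List.mem_map] at hx
    obtain ⟨i, _, rfl⟩ := hx
    exact hw i

end Pool.Agent.W661.CES
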